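import Pool.Agent.W192.CY.AsmTwo
import Pool.Agent.W612.CY.COEF
import Pool.Agent.W216.CY.Div
import Pool.Agent.W230.CY.Orth
import Pool.Agent.W74.CY.WPP
import Pool.Agent.W305.CY.Weil
import Pool.Agent.W143.CY.COUNT
import Pool.Agent.W736.CY.GTAIL
import Pool.Agent.W155.CY.MobM
import Pool.Agent.W372.CY.MainpM
import Pool.Agent.W976.CY.Kloom
import Pool.Agent.W557.CY.Dualp
import Pool.Agent.W460.CY.MFinn
import Pool.Agent.W378.CY.AFE

/-!
# Large order twists of modular abelian varieties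

`f ∈ S_2(Γ₀(N))` is a newform whose coefficient field is not `ℚ`; it corresponds to an abelian
variety `A_f` over `ℚ` of dimension `≥ 2`.  For all but finitely many primitive Dirichlet characters
`χ` of conductor `q` prime to `N` and of order at least `q ^ (3/4 + ε)` some power `ψ = χ ^ a` (`a`
prime to the order of `χ` and `≡ 1` modulo any given integer) satisfies `|L(f, ψ, 1)| ≥ q ^ (-ε)`.

By Shimura's theorem it follows that `L(f, χ, 1) ≠ 0` for all these `χ`, and by Kato's theorem the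
abelian varieties over `ℚ` attached to the newforms `f ⊗ χ` have a finite Mordell–Weil group and
finite `p`-primary parts of the Tate–Shafarevich group.

Joint work of helper192 with helpers 55, 74, 143, 155, 196, 216, 230, 305, 372, 378, 410, 460, 479,
557, 612, 736, 756, 782, 916, 928, 976, on the library of helper388 and others on twists of
newforms.
-/

set_option autoImplicit false

open Complex UpperHalfPlane MatrixGroups CongruenceSubgroup

namespace Pool.Agent.Results.MP_a43263_nt.LargeOrderTwists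

/-- The `n`-th Fourier coefficient of `f`. -/
noncomputable def coef {N : ℕ} (f : CuspForm (Gamma0 N : Subgroup (GL (Fin 2) ℝ)) 2) (n : ℕ) : ℂ :=
  (qExpansion 1 f).coeff n

/-- `f ∈ S_2(Γ₀(N))` is a newform: the Fourier coefficients `c(n)` of `f` are real with `c(1) = 1`,
they satisfy the Hecke relations `c(mn) = c(m) c(n)` for coprime `m`, `n` and
`c(p^(j+2)) = c(p) c(p^(j+1)) - p c(p^j)` (without the last term if `p ∣ N`), `f` is an
eigenfunction of the Fricke involution: `f(-1/(Nτ)) = -w N τ² f(τ)` with `w = ±1`,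
`|c(p)| ≤ 2 √p` for the primes `p ∤ N`, and `c(p) ∈ {0, 1, -1}` for the primes `p ∣ N`. -/
structure IsNewform (N : ℕ) (f : CuspForm (Gamma0 N : Subgroup (GL (Fin 2) ℝ)) 2) : Prop where
  one : coef f 1 = 1
  real : ∀ n, (coef f n).im = 0
  mul : ∀ m n : ℕ, Nat.Coprime m n → coef f (m * n) = coef f m * coef f n
  pow : ∀ p j : ℕ, p.Prime → coef f (p ^ (j + 2)) = coef f p * coef f (p ^ (j + 1)) -
      (if p ∣ N then 0 else (p : ℂ) * coef f (p ^ j))
  fricke : ∃ w : ℝ, (w = 1 ∨ w = -1) ∧ ∀ τ τ' : ℍ, (τ' : ℂ) * ((N : ℂ) * (τ : ℂ)) = -1 →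
    f τ' = -(w : ℂ) * (N : ℂ) * (τ : ℂ) ^ 2 * f τ
  good : ∀ p : ℕ, p.Prime → ¬ p ∣ N → ‖coef f p‖ ≤ 2 * Real.sqrt p
  bad : ∀ p : ℕ, p.Prime → p ∣ N → coef f p = 0 ∨ coef f p = 1 ∨ coef f p = -1

/-- The Euler factor of `L(f, χ, s)` at the prime `p`:
`(1 - χ(p) c(p) p^(-s) + χ(p)² p^(1-2s))⁻¹` for `p ∤ N`, `(1 - χ(p) c(p) p^(-s))⁻¹` for `p ∣ N`. -/
noncomputable def factor {N : ℕ} (f : CuspForm (Gamma0 N : Subgroup (GL (Fin 2) ℝ)) 2) (q : ℕ)
    (χ : DirichletCharacter ℂ q) (s : ℂ) (p : ℕ) : ℂ :=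
  (1 - χ (p : ZMod q) * coef f p * (p : ℂ) ^ (-s) +
    (if p ∣ N then 0 else χ (p : ZMod q) ^ 2 * (p : ℂ) ^ (1 - 2 * s)))⁻¹

/-! ### Translation from the analytic normalisation -/

theorem lamf_eq {N : ℕ} (f : CuspForm (Gamma0 N : Subgroup (GL (Fin 2) ℝ)) 2)
    (hr : ∀ n, (coef f n).im = 0) (p : ℕ) (hp : p.Prime) (s : ℂ) :
    (W388.lamf f p : ℂ) * (p : ℂ) ^ (-(s - 1 / 2)) = coef f p * (p : ℂ) ^ (-s) := by
  have hp0 : (0 : ℝ) < p := by exact_mod_cast hp.pos
  have hpc : (p : ℂ) ≠ 0 := by exact_mod_cast hp.ne_zero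
  have hc : coef f p = ((coef f p).re : ℂ) := by
    apply Complex.ext
    · simp
    · simp [hr p]
  unfold W388.lamf
  rw [hc]
  unfold coef
  rw [show -(s - 1 / 2) = -s + (1 / 2 : ℂ) by ring, Complex.cpow_add _ _ hpc]
  push_cast
  rw [Complex.ofReal_cpow hp0.le]
  have e : ((((2 : ℝ) - 1) / 2 : ℝ) : ℂ) = (1 / 2 : ℂ) := by push_cast; norm_num
  rw [e]
  have hne : (p : ℂ) ^ (1 / 2 : ℂ) ≠ 0 := by
    rw [Ne, Complex.cpow_eq_zero_iff]
    exact fun h => hpc h.1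
  rw [Complex.ofReal_natCast]
  field_simp

theorem factor_shift {N : ℕ} (f : CuspForm (Gamma0 N : Subgroup (GL (Fin 2) ℝ)) 2)
    (hr : ∀ n, (coef f n).im = 0) (q : ℕ)
    (χ : DirichletCharacter ℂ q) (s : ℂ) (p : ℕ) (hp : p.Prime) :
    factor f q χ s p = (1 - χ (p : ZMod q) * (W388.lamf f p : ℂ) * (p : ℂ) ^ (-(s - 1 / 2)) +
      (if p ∣ N then 0 else χ (p : ZMod q) ^ 2 * (p : ℂ) ^ (-2 * (s - 1 / 2))))⁻¹ := by
  unfold factor
  rw [mul_assoc (χ (p : ZMod q)) (W388.lamf f p : ℂ), lamf_eq f hr p hp s, ← mul_assoc,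
    show (-2 * (s - 1 / 2) : ℂ) = 1 - 2 * s by ring]

theorem isNewf {N : ℕ}
    {f : CuspForm (Gamma0 N : Subgroup (GL (Fin 2) ℝ)) 2} (hf : IsNewform N f) :
    ∃ w : ℝ, W388.IsNewf N 2 f w := by
  obtain ⟨w, hw, hfr⟩ := hf.fricke
  have hN0 : (0 : ℝ) ≤ (N : ℝ) := Nat.cast_nonneg N
  have hsq : ((Real.sqrt N : ℝ) : ℂ) ^ 2 = (N : ℂ) := by
    have h1 : (Real.sqrt N) ^ 2 = (N : ℝ) := Real.sq_sqrt hN0
    exact_mod_cast congrArg (fun x : ℝ => (x : ℂ)) h1
  refine ⟨w, hf.one, hf.real, hf.mul, ?_, hw, ?_⟩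
  · intro p j hp
    have h1 := hf.pow p j hp
    unfold coef at h1
    rw [h1]
    norm_num
  · intro τ τ' h
    rw [hfr τ τ' h]
    congr 1
    have hI : Complex.I ^ 2 = -1 := Complex.I_sq
    have : (((Real.sqrt N : ℝ) : ℂ) * (τ : ℂ) / Complex.I) ^ (2 : ℤ) = -((N : ℂ) * (τ : ℂ) ^ 2) := by
      rw [zpow_ofNat, div_pow, mul_pow, hsq, hI]
      ring
    rw [this]
    ring

theorem isCoef {N : ℕ} [NeZero N]
    {f : CuspForm (Gamma0 N : Subgroup (GL (Fin 2) ℝ)) 2} (hf : IsNewform N f) :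
    Pool.Agent.W192.CY.Coef N (fun n => ((qExpansion 1 f).coeff n).re) := by
  have hre : ∀ n, (coef f n) = (((coef f n).re : ℝ) : ℂ) := fun n => by
    apply Complex.ext
    · simp
    · simp [hf.real n]
  constructor
  · have h := W388.coeff_zero f
    simp [h]
  · have h := hf.one
    unfold coef at h
    simp [h]
  · intro m n h
    have h1 := hf.mul m n h
    rw [hre (m * n), hre m, hre n] at h1
    exact_mod_cast h1
  · intro p j hp
    have h1 := hf.pow p j hp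
    rw [hre (p ^ (j + 2)), hre p, hre (p ^ (j + 1)), hre (p ^ j)] at h1
    by_cases h : p ∣ N
    · simp only [h, if_true] at h1 ⊢
      exact_mod_cast h1
    · simp only [h, if_false] at h1 ⊢
      exact_mod_cast h1
  · intro p hp hpN
    exact (Complex.abs_re_le_norm _).trans (hf.good p hp hpN)
  · intro p hp hpN
    change |(coef f p).re| ≤ 1
    rcases hf.bad p hp hpN with h | h | h <;> rw [h] <;> simp

/-- **Main theorem.** Let `f ∈ S_2(Γ₀(N))` be a newform with a coefficient that is not rational.  For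
every primitive Dirichlet character `χ` of conductor `q` prime to `N` there is an entire function
`L q χ` which for `Re s > 3/2` is the Euler product of `L(f, χ, s)`; and for every `M ≥ 1` and every
`ε > 0` there is `q₀` such that for all `q ≥ q₀` prime to `N` and all primitive characters `χ` modulo
`q` of order at least `q ^ (3/4 + ε)` there is a natural number `a` prime to the order of `χ`,
`a ≡ 1 mod M`, such that `χ ^ a` is primitive and `|L(f, χ ^ a, 1)| ≥ q ^ (-ε)`. -/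
theorem result (N : ℕ) [NeZero N]
    (f : CuspForm (Gamma0 N : Subgroup (GL (Fin 2) ℝ)) 2) (hf : IsNewform N f)
    (_hQ : ∃ n : ℕ, ∀ r : ℚ, coef f n ≠ (r : ℂ)) :
    ∃ L : (q : ℕ) → DirichletCharacter ℂ q → ℂ → ℂ,
      (∀ (q : ℕ) (χ : DirichletCharacter ℂ q), 1 ≤ q → Nat.Coprime q N → χ.IsPrimitive →
        Differentiable ℂ (L q χ) ∧ ∀ s : ℂ, 3 / 2 < s.re →
          HasProd (fun p : Nat.Primes => factor f q χ s p) (L q χ s)) ∧
      ∀ M : ℕ, 1 ≤ M → ∀ ε : ℝ, 0 < ε → ∃ q0 : ℕ, ∀ q : ℕ, q0 ≤ q → Nat.Coprime q N →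
        ∀ χ : DirichletCharacter ℂ q, χ.IsPrimitive → (q : ℝ) ^ (3 / 4 + ε) ≤ orderOf χ →
          ∃ a : ℕ, Nat.Coprime a (orderOf χ) ∧ a ≡ 1 [MOD M] ∧ (χ ^ a).IsPrimitive ∧
            (q : ℝ) ^ (-ε) ≤ ‖L q (χ ^ a) 1‖ := by
  obtain ⟨w, hf'⟩ := isNewf hf
  have hdiv := Pool.Agent.W216.CY.t_div
  have horth := Pool.Agent.W230.CY.t_orth
  have hweil := Pool.Agent.W305.CY.t_weil Pool.Agent.W74.CY.wpp hdiv
  have htail := Pool.Agent.W736.CY.GTAIL.t_gtail (Pool.Agent.W143.CY.g_count hdiv)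
  have hmob := Pool.Agent.W155.CY.m_mob
  have hkloo := Pool.Agent.W976.CYKloom.m_kloo horth hweil
  have hmain := Pool.Agent.W372.CY.m_mainp hdiv horth hmob htail
  have hdual := Pool.Agent.W557.CYMDualp.m_dualp hdiv hmob hkloo
  have hfin := Pool.Agent.W460.CYM.m_finn W612.CY.t_coef hdiv hmob hmain hdual
  obtain ⟨L, hL, h⟩ := Pool.Agent.W192.CY.corem2 Pool.Agent.W378.CY.t_AFE hfin hf' (isCoef hf)
  refine ⟨fun q χ s => L q χ (s - 1 / 2), ?_, ?_⟩
  · intro q χ hq hqM hχ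
    obtain ⟨h1, h2⟩ := hL q χ hq hqM hχ
    refine ⟨h1.comp (by fun_prop), fun s hs => ?_⟩
    have h3 := h2 (s - 1 / 2) (by
      have : (s - 1 / 2 : ℂ).re = s.re - 1 / 2 := by simp
      rw [this]; linarith)
    refine (congrArg (fun g => HasProd g (L q χ (s - 1 / 2))) (funext fun p => ?_)).mpr h3
    exact factor_shift f hf.real q χ s p p.2
  · intro M hM ε hε
    obtain ⟨q0, h0⟩ := h M hM ε hε
    refine ⟨q0, fun q hq hqN χ hχ hord => ?_⟩
    obtain ⟨a, ha1, ha2, ha3, ha4⟩ := h0 q hq hqN χ hχ hord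
    refine ⟨a, ha1, ha2, ha3, ?_⟩
    have e : (1 : ℂ) - 1 / 2 = 1 / 2 := by norm_num
    simpa only [e] using ha4

end Pool.Agent.Results.MP_a43263_nt.LargeOrderTwists
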