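import Mathlib
import Pool.Agent.W262.SH.FamD
import Pool.Agent.W262.SH.DefC
import Pool.Agent.W262.SH.Kum
import Pool.Agent.W131.SH.Locl2
import Pool.Agent.W839.SH.Desc5
import Pool.Agent.W177.SH.Div
import Pool.Agent.W333.SH.Dup
import Pool.Agent.W782.SH.LocX
import Pool.Agent.W334.SH.Sh1
import Pool.Agent.W338.SH.Sh2
import Pool.Agent.W756.SH.Twi
import Pool.Agent.W509.SH.Lat
import Pool.Agent.W509.SH.Phia2
import Pool.Agent.W991.SH.Rk2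
import Pool.Agent.W352.SH.Grp

/-!
# Ranks and Tate-Shafarevich groups of abelian varieties `A_t` of dimension `d`

Let `F k (t) = a k * ∏ (γ i * t + δ i) * ∏_{i < n} (α k i * t + β k i)` for `k = 0, 1, 2` with
`F 0 - F 1 = F 2`, and let `D i (t) = b i * ∏_{g j = i} (μ j * t + ν j)` for `i < l`, where all the
linear forms are pairwise non-proportional. Let `E_t : y² = x (x - F 0 (t)) (x - F 1 (t))`, let
`ρ` be a homomorphism of `{±1}^l` to `GL_d(ℤ)`, and let `A_t` be the twist of `E_t ^ d` by the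
composition of `ρ` with `Gal(ℚ̄/ℚ) → Gal(ℚ(√D_1(t), ..., √D_l(t))/ℚ) → {±1}^l`, an abelian
variety of dimension `d` over `ℚ`. Then the average over `|t| ≤ X` of
`2 ^ ((rank A_t(ℚ) + r t) / d)` is bounded, where `Ш(A_t/ℚ)` contains `(ℤ/2^(l+1))^(r t)`.
-/

namespace Pool.Agent.Results.MP_a43263_nt.TwistedPowers

open Finset

open Pool.Agent.W262.SH (E Rep ShaAb HasZ rkS AQ)

/-- `F k (t) = a k * (∏ i, (γ i * t + δ i)) * ∏ i, (α k i * t + β k i)` -/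
def F {n m : ℕ} (a : Fin 3 → ℤ) (γ δ : Fin m → ℤ) (α β : Fin 3 → Fin n → ℤ) (k : Fin 3)
    (t : ℤ) : ℤ :=
  a k * (∏ i, (γ i * t + δ i)) * ∏ i, (α k i * t + β k i)

/-- `D i (t) = b i * ∏ (μ j * t + ν j)`, the product over the `j` with `g j = i` -/
def D {l s : ℕ} (b : Fin l → ℤ) (g : Fin s → Fin l) (μ ν : Fin s → ℤ) (t : ℤ) (i : Fin l) : ℤ :=
  b i * ∏ j ∈ univ.filter (fun j => g j = i), (μ j * t + ν j)

/-- The average of `2 ^ ((rank A_t(ℚ) + r t) / dim A_t)` is bounded. -/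
theorem result (n m l s d : ℕ) (hd : 0 < d) (ρ : Rep l d)
    (a : Fin 3 → ℤ) (γ δ : Fin m → ℤ) (α β : Fin 3 → Fin n → ℤ)
    (b : Fin l → ℤ) (g : Fin s → Fin l) (μ ν : Fin s → ℤ)
    (ha : ∀ k, a k ≠ 0) (hα : ∀ k i, α k i ≠ 0) (hγ : ∀ i, γ i ≠ 0) (hb : ∀ i, b i ≠ 0)
    (hμ : ∀ j, μ j ≠ 0)
    (h1 : ∀ k i l j, (k, i) ≠ (l, j) → α k i * β l j ≠ α l j * β k i)
    (h2 : ∀ i j, i ≠ j → γ i * δ j ≠ γ j * δ i)
    (h3 : ∀ k i j, α k i * δ j ≠ γ j * β k i)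
    (h4 : ∀ i j, i ≠ j → μ i * ν j ≠ μ j * ν i)
    (h5 : ∀ k i j, α k i * ν j ≠ μ j * β k i)
    (h6 : ∀ i j, γ i * ν j ≠ μ j * δ i)
    (hF : ∀ t : ℤ, F a γ δ α β 0 t - F a γ δ α β 1 t = F a γ δ α β 2 t) :
    ∃ C : ℝ, ∀ r : ℤ → ℕ,
      (∀ t, (∀ k, F a γ δ α β k t ≠ 0) → (∀ i, D b g μ ν t i ≠ 0) →
        HasZ (ShaAb (E (F a γ δ α β 0 t) (F a γ δ α β 1 t)) (D b g μ ν t) ρ) (2 ^ (l + 1))
          (r t)) →
      ∀ X : ℕ, 1 ≤ X →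
      ∑ t ∈ (Icc (-(X : ℤ)) X).filter
        (fun t : ℤ => (∀ k, F a γ δ α β k t ≠ 0) ∧ ∀ i, D b g μ ν t i ≠ 0),
        (2 : ℝ) ^ ((rkS (AQ (E (F a γ δ α β 0 t) (F a γ δ α β 1 t)) (D b g μ ν t) ρ) + r t : ℝ) /
          d) ≤ C * X := by
  classical
  have hS1 : Pool.Agent.W262.SH.SH1 := Pool.Agent.W334.SH.sh1 Pool.Agent.W262.SH.kum
    (Pool.Agent.W782.SH.locx Pool.Agent.W333.SH.dup)
  have hS2 : Pool.Agent.W262.SH.SH2 := Pool.Agent.W338.SH.sh2 Pool.Agent.W177.SH.div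
  have hD : Pool.Agent.W262.SH.DESC5 := Pool.Agent.W839.SH.desc5 Pool.Agent.W131.SH.good2
  have hL : Pool.Agent.W262.SH.LOCL2 := Pool.Agent.W131.SH.locl2
  have hT : Pool.Agent.W262.SH.TWI := Pool.Agent.W756.SH.Twi.twi
  have hP : Pool.Agent.W262.SH.PHIA2 := Pool.Agent.W509.SH.phia2 hT
  have hR : Pool.Agent.W262.SH.RKA2 := Pool.Agent.W991.SH.rka2 hT
  obtain ⟨C, hC⟩ := Pool.Agent.W262.SH.famD hD hL hS1 hS2 Pool.Agent.W509.SH.lat hP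
    Pool.Agent.W352.SH.grp hR hd a γ δ α β b g μ ν ρ ha hα hγ hb hμ h1 h2 h3 h4 h5 h6 hF
  refine ⟨C, fun r hr X hX => ?_⟩
  have h := hC r (fun t ht ht2 => (Pool.Agent.W262.SH.has_shaAb _ _ _ _ _).1 (hr t ht ht2)) X hX
  refine le_trans (le_of_eq (sum_congr rfl fun t _ => ?_)) h
  push_cast
  rfl

end Pool.Agent.Results.MP_a43263_nt.TwistedPowers
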